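import Mathlib
import Pool.Agent.TH264.Bridge.PartA
import Pool.Agent.TH264.Bridge.PartB

set_option autoImplicit false

/-!
# The bridge theorem for actions of monoids on compact abelian groups

`K` is a compact Hausdorff abelian group (written multiplicatively), `γ` is a left action of a
monoid `S` on `K` by continuous endomorphisms and `PontryaginDual K` is the dual group, on which
`S` acts on the right by `χ · s = χ ∘ γ(s)` (this is `PontryaginDual.map (γ s) χ`).
-/

namespace Pool.Agent.Results.MP_699bc8_an.BridgeTheorem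

open Filter Topology MeasureTheory
open scoped Pointwise
open Pool.Agent.TH264.Bridge

universe u v w

/-- A left action of the monoid `S` on the topological group `K` by continuous endomorphisms. -/
structure EndoAction (S : Type u) (K : Type w) [Monoid S] [CommGroup K] [TopologicalSpace K] where
  /-- the endomorphism `γ(s)` -/
  act : S → (K →ₜ* K)
  /-- `γ(1) = id` -/
  act_one : ∀ x, act 1 x = x
  /-- `γ(st) = γ(s) γ(t)` -/
  act_mul : ∀ s t x, act (s * t) x = act s (act t x)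

/-- A left Følner net of `S`: non-empty finite sets with `|sF_i \ F_i| / |F_i| → 0` for all `s`. -/
def IsLeftFolnerNet {S : Type u} [Monoid S] {I : Type v} [Preorder I] (F : I → Finset S) : Prop :=
  (∀ i, (F i).Nonempty) ∧
    ∀ s : S, Tendsto
      (fun i => ((((fun t => s * t) '' (F i : Set S)) \ (F i : Set S)).ncard : ℝ) /
        ((F i).card : ℝ)) atTop (𝓝 0)

/-- Finite open covers of `K`. -/
def IsFinOpenCover {K : Type w} [TopologicalSpace K] (𝒰 : Set (Set K)) : Prop :=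
  𝒰.Finite ∧ (∀ U ∈ 𝒰, IsOpen U) ∧ ⋃₀ 𝒰 = Set.univ

/-- `N(𝒰)`: the least size of a subcover of `𝒰`. -/
noncomputable def coverNumber {K : Type w} (𝒰 : Set (Set K)) : ℕ :=
  sInf {n | ∃ 𝒱 : Finset (Set K), (𝒱 : Set (Set K)) ⊆ 𝒰 ∧
    ⋃₀ (𝒱 : Set (Set K)) = Set.univ ∧ 𝒱.card = n}

section Defs

variable {S : Type u} {K : Type w} [Monoid S] [CommGroup K] [TopologicalSpace K]

/-- `𝒰_F = ⋁_{s ∈ F} γ(s)⁻¹(𝒰)`: all sets `⋂_{s ∈ F} γ(s)⁻¹(U_s)` with `U_s ∈ 𝒰`. -/
def joinCover (γ : EndoAction S K) (F : Finset S) (𝒰 : Set (Set K)) : Set (Set K) :=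
  {V | ∃ U : S → Set K, (∀ s ∈ F, U s ∈ 𝒰) ∧ V = ⋂ s ∈ F, (γ.act s) ⁻¹' (U s)}

/-- `T_F(X) = ∑_{s ∈ F} X · s`: all sums (here products, the dual being written
multiplicatively) `∏_{s ∈ F} χ_s ∘ γ(s)` with `χ_s ∈ X`. -/
def trajectory (γ : EndoAction S K) (F : Finset S) (X : Finset (PontryaginDual K)) :
    Set (PontryaginDual K) :=
  {ψ | ∃ χ : S → PontryaginDual K, (∀ s ∈ F, χ s ∈ X) ∧
    ψ = ∏ s ∈ F, PontryaginDual.map (γ.act s) (χ s)}

/-- `log N(𝒰_F) / |F|`. -/
noncomputable def topRate (γ : EndoAction S K) (𝒰 : Set (Set K)) (F : Finset S) : ℝ :=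
  Real.log (coverNumber (joinCover γ F 𝒰)) / F.card

/-- `log |T_F(X)| / |F|`. -/
noncomputable def algRate (γ : EndoAction S K) (X : Finset (PontryaginDual K)) (F : Finset S) :
    ℝ :=
  Real.log ((trajectory γ F X).ncard) / F.card

variable {I : Type v} [Preorder I]

/-- `h` is the topological entropy of `γ` along the net `F`: all limits
`h_top(γ, 𝒰) = lim_i log N(𝒰_{F_i}) / |F_i|` exist and `h` is their supremum. -/
def IsTopEntropy (γ : EndoAction S K) (F : I → Finset S) (h : EReal) : Prop :=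
  ∃ a : {𝒰 : Set (Set K) // IsFinOpenCover 𝒰} → ℝ,
    (∀ 𝒰, Tendsto (fun i => topRate γ 𝒰.1 (F i)) atTop (𝓝 (a 𝒰))) ∧ h = ⨆ 𝒰, (a 𝒰 : EReal)

/-- `h` is the algebraic entropy of the dual action along the net `F`: all limits
`lim_i log |T_{F_i}(X)| / |F_i|` exist and `h` is their supremum. -/
def IsAlgEntropy (γ : EndoAction S K) (F : I → Finset S) (h : EReal) : Prop :=
  ∃ b : {X : Finset (PontryaginDual K) // X.Nonempty} → ℝ,
    (∀ X, Tendsto (fun i => algRate γ X.1 (F i)) atTop (𝓝 (b X))) ∧ h = ⨆ X, (b X : EReal)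

/-- Topological entropy along `F` with upper limits (no existence of limits needed). -/
noncomputable def hTopSup (γ : EndoAction S K) (F : I → Finset S) : EReal :=
  ⨆ 𝒰 : {𝒰 : Set (Set K) // IsFinOpenCover 𝒰},
    limsup (fun i => (topRate γ 𝒰.1 (F i) : EReal)) atTop

/-- Topological entropy along `F` with lower limits. -/
noncomputable def hTopInf (γ : EndoAction S K) (F : I → Finset S) : EReal :=
  ⨆ 𝒰 : {𝒰 : Set (Set K) // IsFinOpenCover 𝒰},
    liminf (fun i => (topRate γ 𝒰.1 (F i) : EReal)) atTop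

/-- Algebraic entropy of the dual action along `F` with upper limits. -/
noncomputable def hAlgSup (γ : EndoAction S K) (F : I → Finset S) : EReal :=
  ⨆ X : {X : Finset (PontryaginDual K) // X.Nonempty},
    limsup (fun i => (algRate γ X.1 (F i) : EReal)) atTop

/-- Algebraic entropy of the dual action along `F` with lower limits. -/
noncomputable def hAlgInf (γ : EndoAction S K) (F : I → Finset S) : EReal :=
  ⨆ X : {X : Finset (PontryaginDual K) // X.Nonempty},
    liminf (fun i => (algRate γ X.1 (F i) : EReal)) atTop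

end Defs

section Aux

variable {S : Type u} {K : Type w} [Monoid S] [CommGroup K] [TopologicalSpace K]

omit [CommGroup K] [TopologicalSpace K] in
lemma coverNumber_le {𝒰 : Set (Set K)} (𝒱 : Finset (Set K)) (h1 : (𝒱 : Set (Set K)) ⊆ 𝒰)
    (h2 : ⋃₀ (𝒱 : Set (Set K)) = Set.univ) : coverNumber 𝒰 ≤ 𝒱.card :=
  Nat.sInf_le ⟨𝒱, h1, h2, rfl⟩

lemma joinCover_open (γ : EndoAction S K) (F : Finset S) {𝒰 : Set (Set K)}
    (h : ∀ U ∈ 𝒰, IsOpen U) : ∀ V ∈ joinCover γ F 𝒰, IsOpen V := by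
  rintro V ⟨U, hU, rfl⟩
  exact isOpen_biInter_finset fun s hs => (h _ (hU s hs)).preimage (map_continuous (γ.act s))

lemma joinCover_cover (γ : EndoAction S K) (F : Finset S) {𝒰 : Set (Set K)}
    (h : ⋃₀ 𝒰 = Set.univ) : ⋃₀ (joinCover γ F 𝒰) = Set.univ := by
  rw [Set.sUnion_eq_univ_iff] at h ⊢
  intro x
  choose U hU hx using fun s => h (γ.act s x)
  exact ⟨_, ⟨U, fun s _ => hU s, rfl⟩, by simpa using fun s _ => hx s⟩

lemma exists_min_cover [CompactSpace K] (γ : EndoAction S K) (F : Finset S) {𝒰 : Set (Set K)}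
    (h : IsFinOpenCover 𝒰) : ∃ 𝒱 : Finset (Set K), (𝒱 : Set (Set K)) ⊆ joinCover γ F 𝒰 ∧
      ⋃₀ (𝒱 : Set (Set K)) = Set.univ ∧ 𝒱.card = coverNumber (joinCover γ F 𝒰) := by
  have hne : {n | ∃ 𝒱 : Finset (Set K), (𝒱 : Set (Set K)) ⊆ joinCover γ F 𝒰 ∧
      ⋃₀ (𝒱 : Set (Set K)) = Set.univ ∧ 𝒱.card = n}.Nonempty := by
    obtain ⟨T, hTs, hTf, hTc⟩ := (isCompact_univ (X := K)).elim_finite_subcover_image
      (c := id) (b := joinCover γ F 𝒰) (joinCover_open γ F h.2.1) (by
        have := joinCover_cover γ F h.2.2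
        rw [Set.sUnion_eq_biUnion] at this
        exact this.ge)
    refine ⟨hTf.toFinset.card, hTf.toFinset, by simpa using hTs, ?_, rfl⟩
    rw [Set.Finite.coe_toFinset, Set.sUnion_eq_biUnion]
    exact Set.univ_subset_iff.1 hTc
  exact Nat.sInf_mem hne

omit [Monoid S] [CommGroup K] [TopologicalSpace K] in
lemma coverNumber_pos [Nonempty K] {n : ℕ} (𝒱 : Finset (Set K))
    (h2 : ⋃₀ (𝒱 : Set (Set K)) = Set.univ) (h3 : 𝒱.card = n) : 0 < n := by
  rw [← h3, Finset.card_pos]
  by_contra hcon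
  rw [Finset.not_nonempty_iff_eq_empty] at hcon
  rw [hcon, Finset.coe_empty, Set.sUnion_empty] at h2
  exact Set.empty_ne_univ h2

lemma trajectory_finite (γ : EndoAction S K) (F : Finset S) (X : Finset (PontryaginDual K)) :
    (trajectory γ F X).Finite := by
  classical
  refine (Set.finite_range (fun c : F → X =>
    ∏ s : F, PontryaginDual.map (γ.act s) (c s : PontryaginDual K))).subset ?_
  rintro ψ ⟨χ, hχ, rfl⟩
  refine ⟨fun s => ⟨χ s, hχ s s.2⟩, ?_⟩
  exact Finset.prod_coe_sort F (fun s => PontryaginDual.map (γ.act s) (χ s))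

lemma trajectory_nonempty (γ : EndoAction S K) (F : Finset S) {X : Finset (PontryaginDual K)}
    (hX : X.Nonempty) : (trajectory γ F X).Nonempty := by
  obtain ⟨χ, hχ⟩ := hX
  exact ⟨_, fun _ => χ, fun _ _ => hχ, rfl⟩

lemma ev_map_prod (γ : EndoAction S K) (F : Finset S) (χ : S → PontryaginDual K) (x : K) :
    ev (∏ s ∈ F, PontryaginDual.map (γ.act s) (χ s)) x = ∏ s ∈ F, ev (χ s) (γ.act s x) := by
  classical
  induction F using Finset.induction_on with
  | empty => simp [ev_one]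
  | insert a F ha ih =>
    rw [Finset.prod_insert ha, Finset.prod_insert ha, mul_ev, ih]
    rfl

/-- Lebesgue neighbourhood. -/
lemma exists_lebesgue [IsTopologicalGroup K] [CompactSpace K] {𝒰 : Set (Set K)}
    (ho : ∀ U ∈ 𝒰, IsOpen U) (hc : ⋃₀ 𝒰 = Set.univ) :
    ∃ U0 ∈ 𝓝 (1 : K), ∀ x : K, ∃ U ∈ 𝒰, ∀ u ∈ U0, x * u ∈ U := by
  have key : ∃ U0 ∈ 𝓝 (1 : K), ∀ x ∈ (Set.univ : Set K), ∃ U ∈ 𝒰, ∀ u ∈ U0, x * u ∈ U := by
    refine (isCompact_univ (X := K)).induction_on
      (p := fun s => ∃ U0 ∈ 𝓝 (1 : K), ∀ x ∈ s, ∃ U ∈ 𝒰, ∀ u ∈ U0, x * u ∈ U) ?_ ?_ ?_ ?_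
    · exact ⟨Set.univ, Filter.univ_mem, fun x hx => absurd hx (Set.notMem_empty x)⟩
    · rintro s t hst ⟨U0, h0, h⟩
      exact ⟨U0, h0, fun x hx => h x (hst hx)⟩
    · rintro s t ⟨U0, h0, h⟩ ⟨U1, h1, h'⟩
      refine ⟨U0 ∩ U1, Filter.inter_mem h0 h1, ?_⟩
      rintro x (hx | hx)
      · obtain ⟨U, hU, hu⟩ := h x hx
        exact ⟨U, hU, fun u hu' => hu u hu'.1⟩
      · obtain ⟨U, hU, hu⟩ := h' x hx
        exact ⟨U, hU, fun u hu' => hu u hu'.2⟩
    · intro x _
      obtain ⟨U, hU, hxU⟩ := (Set.sUnion_eq_univ_iff.1 hc) x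
      have hcont : Tendsto (fun p : K × K => p.1 * p.2) (𝓝 x ×ˢ 𝓝 1) (𝓝 x) := by
        have := (continuous_mul (M := K)).tendsto (x, 1)
        rw [nhds_prod_eq] at this
        simpa using this
      have hm := hcont ((ho U hU).mem_nhds hxU)
      rw [Filter.mem_map, Filter.mem_prod_iff] at hm
      obtain ⟨A, hA, B, hB, hAB⟩ := hm
      refine ⟨A, mem_nhdsWithin_of_mem_nhds hA, B, hB, fun y hy => ⟨U, hU, fun u hu => ?_⟩⟩
      exact hAB (Set.mk_mem_prod hy hu)
  obtain ⟨U0, h0, h⟩ := key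
  exact ⟨U0, h0, fun x => h x (Set.mem_univ x)⟩

/-- Haar probability measure. -/
lemma exists_haar (K : Type w) [CommGroup K] [TopologicalSpace K] [IsTopologicalGroup K]
    [CompactSpace K] [MeasurableSpace K] [BorelSpace K] :
    ∃ μ : Measure K, μ.IsHaarMeasure ∧ IsProbabilityMeasure μ := by
  let K₀ : TopologicalSpace.PositiveCompacts K := ⊤
  refine ⟨Measure.haarMeasure K₀, inferInstance, ⟨?_⟩⟩
  have : ((K₀ : TopologicalSpace.PositiveCompacts K) : Set K) = Set.univ := rfl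
  rw [← this, Measure.haarMeasure_self]

/-- First half: `N(𝒰_F) ≤ |T_F(X)| e^{ε |F|}`, uniformly in the finite set `F`. -/
theorem cover_le [IsTopologicalGroup K] [CompactSpace K] [T2Space K] (γ : EndoAction S K)
    {𝒰 : Set (Set K)} (h𝒰 : IsFinOpenCover 𝒰) {ε : ℝ} (hε : 0 < ε) :
    ∃ X : Finset (PontryaginDual K), X.Nonempty ∧ ∀ F : Finset S,
      (coverNumber (joinCover γ F 𝒰) : ℝ) ≤ (trajectory γ F X).ncard * Real.exp (ε * F.card) := by
  classical
  obtain ⟨U0, hU0, hleb⟩ := exists_lebesgue h𝒰.2.1 h𝒰.2.2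
  obtain ⟨V1, hV1, hV1'⟩ := exists_nhds_split_inv hU0
  obtain ⟨V2, hV2, hV2'⟩ := exists_nhds_split_inv hV1
  set W : Set K := interior V2 with hW
  have hWo : IsOpen W := isOpen_interior
  have h1W : (1 : K) ∈ W := mem_interior_iff_mem_nhds.2 hV2
  have hWW : ∀ y ∈ (W / W) / (W / W), y ∈ U0 := by
    rintro _ ⟨_, ⟨a, ha, b, hb, rfl⟩, _, ⟨c, hc, d, hd, rfl⟩, rfl⟩
    exact hV1' _ (hV2' a (interior_subset ha) b (interior_subset hb)) _
      (hV2' c (interior_subset hc) d (interior_subset hd))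
  obtain ⟨A, hA⟩ : ∃ A : Finset K, ∀ x, ∃ a ∈ A, a⁻¹ * x ∈ W := by
    obtain ⟨t, ht⟩ := compact_covered_by_mul_left_translates (K := (Set.univ : Set K)) (V := W)
      isCompact_univ ⟨1, by rwa [hWo.interior_eq]⟩
    refine ⟨t.image (fun g => g⁻¹), fun x => ?_⟩
    have := ht (Set.mem_univ x)
    simp only [Set.mem_iUnion, Set.mem_preimage] at this
    obtain ⟨g, hg, hgx⟩ := this
    exact ⟨g⁻¹, Finset.mem_image_of_mem _ hg, by rwa [inv_inv]⟩
  have hA0 : 0 < (A.card : ℝ) := by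
    obtain ⟨a, ha, _⟩ := hA 1
    exact_mod_cast Finset.card_pos.2 ⟨a, ha⟩
  obtain ⟨X, a, hXne, ha1, hle, hδ⟩ := exists_trig W hWo h1W (ε / A.card) (by positivity)
  refine ⟨X, hXne, fun F => ?_⟩
  let _ : MeasurableSpace K := borel K
  have _ : BorelSpace K := ⟨rfl⟩
  obtain ⟨μ, hμ1, hμ2⟩ := exists_haar K
  let T : Finset (PontryaginDual K) := (trajectory_finite γ F X).toFinset
  have hTmem : ∀ ψ, ψ ∈ T ↔ ψ ∈ trajectory γ F X := fun ψ => Set.Finite.mem_toFinset _
  have hTcard : T.card = (trajectory γ F X).ncard := (Set.ncard_eq_toFinset_card _ _).symm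
  have hT : ∀ c : F → PontryaginDual K, (∀ i, c i ∈ X) → ∃ ψ ∈ T,
      ∀ x, ev ψ x = ∏ i : F, ev (c i) ((γ.act i : K →* K) x) := by
    intro c hc
    let c' : S → PontryaginDual K := fun s => if h : s ∈ F then c ⟨s, h⟩ else 1
    have hc' : ∀ s : F, c' s = c s := fun s => by simp [c']
    refine ⟨∏ s ∈ F, PontryaginDual.map (γ.act s) (c' s), ?_, ?_⟩
    · rw [hTmem]
      refine ⟨c', fun s hs => ?_, rfl⟩
      rw [hc' ⟨s, hs⟩]
      exact hc _
    · intro x
      rw [ev_map_prod, ← Finset.prod_coe_sort]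
      refine Finset.prod_congr rfl fun s _ => ?_
      rw [hc']
      rfl
  have hmain := partA μ (fun i : F => (γ.act i : K →* K))
    (fun i => map_continuous (γ.act i)) X T hT W hWo A hA (ε / A.card) (by positivity) a ha1
    hle hδ
  have hVo : IsOpen {x : K | ∀ i : F, (γ.act i : K →* K) x ∈ W / W} := by
    have : {x : K | ∀ i : F, (γ.act i : K →* K) x ∈ W / W} =
        ⋂ i : F, (fun x => γ.act i x) ⁻¹' (W / W) := by
      ext x
      simp
    rw [this]
    exact isOpen_iInter_of_finite fun i =>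
      (hWo.div_right).preimage (map_continuous (γ.act i))
  have h1V : (1 : K) ∈ {x : K | ∀ i : F, (γ.act i : K →* K) x ∈ W / W} := by
    intro i
    rw [map_one]
    exact ⟨1, h1W, 1, h1W, by simp⟩
  obtain ⟨E, hE1, hE2⟩ := exists_cover μ _ hVo h1V
  -- the subcover
  choose U hU hUm using fun x : K => hleb x
  have hcov : coverNumber (joinCover γ F 𝒰) ≤ E.card := by
    refine (coverNumber_le (E.image (fun x => ⋂ s ∈ F, (γ.act s) ⁻¹' (U (γ.act s x)))) ?_ ?_).trans
      Finset.card_image_le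
    · intro V hV
      rw [Finset.mem_coe, Finset.mem_image] at hV
      obtain ⟨x, _, rfl⟩ := hV
      exact ⟨fun s => U (γ.act s x), fun s _ => hU _, rfl⟩
    · rw [Set.sUnion_eq_univ_iff]
      intro y
      obtain ⟨x, hx, v, hv, v', hv', hvv⟩ := hE2 y
      refine ⟨⋂ s ∈ F, (γ.act s) ⁻¹' (U (γ.act s x)), ?_, ?_⟩
      · rw [Finset.mem_coe, Finset.mem_image]
        exact ⟨x, hx, rfl⟩
      · simp only [Set.mem_iInter, Set.mem_preimage]
        intro s hs
        have h2 : γ.act s (v / v') ∈ U0 := by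
          apply hWW
          rw [map_div]
          exact ⟨_, hv ⟨s, hs⟩, _, hv' ⟨s, hs⟩, rfl⟩
        have h3 := hUm (γ.act s x) _ h2
        have h4 : γ.act s x * γ.act s (v / v') = γ.act s y := by
          have : v / v' = x⁻¹ * y := hvv
          rw [this, ← map_mul, mul_inv_cancel_left]
        rwa [h4] at h3
  rw [← hTcard]
  set m : ℝ := μ.real {x : K | ∀ i : F, (γ.act i : K →* K) x ∈ W / W} with hm
  have hm0 : 0 ≤ m := by positivity
  have he : (1 + ε / A.card * A.card) ^ Fintype.card F ≤ Real.exp (ε * F.card) := by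
    rw [div_mul_cancel₀ _ hA0.ne', Fintype.card_coe, mul_comm ε, Real.exp_nat_mul]
    have := Real.add_one_le_exp ε
    gcongr
    linarith
  calc (coverNumber (joinCover γ F 𝒰) : ℝ) ≤ E.card := by exact_mod_cast hcov
    _ = E.card * 1 := by ring
    _ ≤ E.card * (T.card * ((1 + ε / A.card * A.card) ^ Fintype.card F * m)) := by
        gcongr
    _ = (E.card * m) * (T.card * (1 + ε / A.card * A.card) ^ Fintype.card F) := by ring
    _ ≤ 1 * (T.card * (1 + ε / A.card * A.card) ^ Fintype.card F) := by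
        gcongr
    _ ≤ T.card * Real.exp (ε * F.card) := by
        rw [one_mul]
        gcongr

/-- Second half: `|T_F(X)| ≤ N(𝒰_F) e^{ε |F|}`, uniformly in the finite set `F`. -/
theorem trajectory_le [IsTopologicalGroup K] [CompactSpace K] (γ : EndoAction S K)
    (X : Finset (PontryaginDual K)) {ε : ℝ} (hε : 0 < ε) :
    ∃ 𝒰 : Set (Set K), IsFinOpenCover 𝒰 ∧ ∀ F : Finset S,
      ((trajectory γ F X).ncard : ℝ) ≤
        coverNumber (joinCover γ F 𝒰) * Real.exp (ε * F.card) := by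
  classical
  set η : ℝ := ε / (2 * (X.card + 1)) with hη
  have hη0 : 0 < η := by positivity
  -- the cover
  let O : K → Set K := fun x => {y | ∀ χ ∈ X, ‖ev χ y - ev χ x‖ < η / 2}
  have hO : ∀ x, IsOpen (O x) := by
    intro x
    have : O x = ⋂ χ ∈ X, {y | ‖ev χ y - ev χ x‖ < η / 2} := by
      ext y
      simp [O]
    rw [this]
    refine isOpen_biInter_finset fun χ _ => ?_
    exact isOpen_lt ((ev_cont χ).sub continuous_const).norm continuous_const
  have hOx : ∀ x, x ∈ O x := by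
    intro x χ _
    rw [sub_self, norm_zero]
    positivity
  obtain ⟨t, ht⟩ := (isCompact_univ (X := K)).elim_finite_subcover O hO
    (fun x _ => Set.mem_iUnion.2 ⟨x, hOx x⟩)
  let 𝒰 : Set (Set K) := O '' (t : Set K)
  have h𝒰 : IsFinOpenCover 𝒰 := by
    refine ⟨t.finite_toSet.image O, ?_, ?_⟩
    · rintro _ ⟨x, _, rfl⟩
      exact hO x
    · rw [Set.sUnion_eq_univ_iff]
      intro y
      have := ht (Set.mem_univ y)
      simp only [Set.mem_iUnion] at this
      obtain ⟨x, hx, hy⟩ := this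
      exact ⟨O x, ⟨x, hx, rfl⟩, hy⟩
  refine ⟨𝒰, h𝒰, fun F => ?_⟩
  let _ : MeasurableSpace K := borel K
  have _ : BorelSpace K := ⟨rfl⟩
  obtain ⟨μ, hμ1, hμ2⟩ := exists_haar K
  let T : Finset (PontryaginDual K) := (trajectory_finite γ F X).toFinset
  have hTmem : ∀ ψ, ψ ∈ T ↔ ψ ∈ trajectory γ F X := fun ψ => Set.Finite.mem_toFinset _
  have hTcard : T.card = (trajectory γ F X).ncard := (Set.ncard_eq_toFinset_card _ _).symm
  obtain ⟨𝒱, h𝒱1, h𝒱2, h𝒱3⟩ := exists_min_cover γ F h𝒰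
  set N := coverNumber (joinCover γ F 𝒰) with hN
  let e : Fin N ≃ 𝒱 := (finCongr h𝒱3.symm).trans 𝒱.equivFin.symm
  have hmem : ∀ j, ((e j : 𝒱) : Set K) ∈ joinCover γ F 𝒰 := fun j => h𝒱1 (e j).2
  have hB := partB μ (fun (i : F) (x : K) => γ.act i x) (fun i => map_continuous (γ.act i)) X T
    (by
      intro ψ hψ
      rw [hTmem] at hψ
      obtain ⟨χ, hχ, rfl⟩ := hψ
      refine ⟨fun i => χ i, fun i => hχ i i.2, fun x => ?_⟩
      rw [ev_map_prod, ← Finset.prod_coe_sort])
    η hη0.le N (fun j => ((e j : 𝒱) : Set K))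
    (fun j => joinCover_open γ F h𝒰.2.1 _ (hmem j))
    (by
      rw [Set.eq_univ_iff_forall]
      intro x
      obtain ⟨V, hV, hx⟩ := (Set.sUnion_eq_univ_iff.1 h𝒱2) x
      rw [Set.mem_iUnion]
      refine ⟨e.symm ⟨V, hV⟩, ?_⟩
      rw [Equiv.apply_symm_apply]
      exact hx)
    (by
      intro j i χ hχ x hx y hy
      obtain ⟨U, hU, hVU⟩ := hmem j
      simp only [hVU, Set.mem_iInter, Set.mem_preimage] at hx hy
      have hx' := hx i i.2
      have hy' := hy i i.2
      obtain ⟨z, _, hz⟩ := hU i i.2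
      rw [← hz] at hx' hy'
      have h1 := hx' χ hχ
      have h2 := hy' χ hχ
      have h3 : ev χ (γ.act i x) - ev χ (γ.act i y) =
          (ev χ (γ.act i x) - ev χ z) - (ev χ (γ.act i y) - ev χ z) := by ring
      rw [h3]
      refine (norm_sub_le _ _).trans ?_
      linarith)
  rw [← hTcard]
  refine hB.trans ?_
  rw [Fintype.card_coe]
  have h1 : (1 + η * X.card) ^ (2 * F.card) ≤ Real.exp (ε * F.card) := by
    have h2 : 1 + η * X.card ≤ Real.exp (η * X.card) := by
      have := Real.add_one_le_exp (η * X.card)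
      linarith
    calc (1 + η * X.card) ^ (2 * F.card) ≤ Real.exp (η * X.card) ^ (2 * F.card) := by gcongr
      _ = Real.exp (((2 * F.card : ℕ) : ℝ) * (η * X.card)) := (Real.exp_nat_mul _ _).symm
      _ ≤ Real.exp (ε * F.card) := by
        rw [Real.exp_le_exp]
        push_cast
        have h3 : 2 * (η * X.card) ≤ ε := by
          rw [hη]
          have h4 : ε / (2 * ((X.card : ℝ) + 1)) * X.card * 2 = ε * (X.card / (X.card + 1)) := by
            field_simp
          have h5 : (X.card : ℝ) / (X.card + 1) ≤ 1 := by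
            rw [div_le_one (by positivity)]
            linarith
          nlinarith
        have h6 : (0 : ℝ) ≤ F.card := by positivity
        nlinarith
  gcongr

/-- `topRate ≤ algRate + ε`, uniformly in `F`. -/
theorem topRate_le [IsTopologicalGroup K] [CompactSpace K] [T2Space K] (γ : EndoAction S K)
    {𝒰 : Set (Set K)} (h𝒰 : IsFinOpenCover 𝒰) {ε : ℝ} (hε : 0 < ε) :
    ∃ X : Finset (PontryaginDual K), X.Nonempty ∧ ∀ F : Finset S, F.Nonempty →
      topRate γ 𝒰 F ≤ algRate γ X F + ε := by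
  obtain ⟨X, hX, h⟩ := cover_le γ h𝒰 hε
  refine ⟨X, hX, fun F hF => ?_⟩
  have hF0 : (0 : ℝ) < F.card := by exact_mod_cast Finset.card_pos.2 hF
  obtain ⟨𝒱, h𝒱1, h𝒱2, h𝒱3⟩ := exists_min_cover γ F h𝒰
  have hN : (0 : ℝ) < coverNumber (joinCover γ F 𝒰) := by
    exact_mod_cast coverNumber_pos 𝒱 h𝒱2 h𝒱3
  have hT : (0 : ℝ) < (trajectory γ F X).ncard := by
    exact_mod_cast (Set.ncard_pos (trajectory_finite γ F X)).2 (trajectory_nonempty γ F hX)
  have h1 := Real.log_le_log hN (h F)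
  rw [Real.log_mul hT.ne' (Real.exp_ne_zero _), Real.log_exp] at h1
  rw [topRate, algRate, div_add' _ _ _ hF0.ne', div_le_div_iff_of_pos_right hF0]
  exact h1

/-- `algRate ≤ topRate + ε`, uniformly in `F`. -/
theorem algRate_le [IsTopologicalGroup K] [CompactSpace K] (γ : EndoAction S K)
    {X : Finset (PontryaginDual K)} (hX : X.Nonempty) {ε : ℝ} (hε : 0 < ε) :
    ∃ 𝒰 : Set (Set K), IsFinOpenCover 𝒰 ∧ ∀ F : Finset S, F.Nonempty →
      algRate γ X F ≤ topRate γ 𝒰 F + ε := by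
  obtain ⟨𝒰, h𝒰, h⟩ := trajectory_le γ X hε
  refine ⟨𝒰, h𝒰, fun F hF => ?_⟩
  have hF0 : (0 : ℝ) < F.card := by exact_mod_cast Finset.card_pos.2 hF
  obtain ⟨𝒱, h𝒱1, h𝒱2, h𝒱3⟩ := exists_min_cover γ F h𝒰
  have hN : (0 : ℝ) < coverNumber (joinCover γ F 𝒰) := by
    exact_mod_cast coverNumber_pos 𝒱 h𝒱2 h𝒱3
  have hT : (0 : ℝ) < (trajectory γ F X).ncard := by
    exact_mod_cast (Set.ncard_pos (trajectory_finite γ F X)).2 (trajectory_nonempty γ F hX)
  have h1 := Real.log_le_log hT (h F)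
  rw [Real.log_mul hN.ne' (Real.exp_ne_zero _), Real.log_exp] at h1
  rw [topRate, algRate, div_add' _ _ _ hF0.ne', div_le_div_iff_of_pos_right hF0]
  exact h1

end Aux

section Limits

lemma ereal_le_of_add {L M : EReal} (h : ∀ ε : ℝ, 0 < ε → L ≤ (ε : EReal) + M) : L ≤ M := by
  induction M with
  | bot => simpa using h 1 one_pos
  | top => exact le_top
  | coe m =>
    induction L with
    | bot => exact bot_le
    | top =>
      have := h 1 one_pos
      rw [← EReal.coe_add] at this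
      exact absurd (lt_of_le_of_lt this (EReal.coe_lt_top _)) (lt_irrefl _)
    | coe l =>
      rw [EReal.coe_le_coe_iff]
      refine le_of_forall_pos_le_add fun ε hε => ?_
      have := h ε hε
      rw [← EReal.coe_add, EReal.coe_le_coe_iff] at this
      linarith

lemma sup_limsup_le {A B I : Type*} (l : Filter I) [NeBot l] (f : A → I → ℝ) (g : B → I → ℝ)
    (h : ∀ a, ∀ ε : ℝ, 0 < ε → ∃ b, ∀ i, f a i ≤ g b i + ε) :
    ⨆ a, limsup (fun i => (f a i : EReal)) l ≤ ⨆ b, limsup (fun i => (g b i : EReal)) l := by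
  refine iSup_le fun a => ereal_le_of_add fun ε hε => ?_
  obtain ⟨b, hb⟩ := h a ε hε
  have h1 : limsup (fun i => (f a i : EReal)) l ≤
      limsup ((fun _ => (ε : EReal)) + fun i => (g b i : EReal)) l := by
    refine limsup_le_limsup (Filter.Eventually.of_forall fun i => ?_)
    simp only [Pi.add_apply]
    rw [← EReal.coe_add, EReal.coe_le_coe_iff, add_comm]
    exact hb i
  refine h1.trans ((EReal.limsup_add_le ?_ ?_).trans ?_)
  · left; rw [limsup_const]; exact EReal.coe_ne_bot ε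
  · left; rw [limsup_const]; exact EReal.coe_ne_top ε
  · rw [limsup_const]
    exact add_le_add le_rfl (le_iSup (fun b => limsup (fun i => (g b i : EReal)) l) b)

lemma sup_liminf_le {A B I : Type*} (l : Filter I) [NeBot l] (f : A → I → ℝ) (g : B → I → ℝ)
    (h : ∀ a, ∀ ε : ℝ, 0 < ε → ∃ b, ∀ i, f a i ≤ g b i + ε) :
    ⨆ a, liminf (fun i => (f a i : EReal)) l ≤ ⨆ b, liminf (fun i => (g b i : EReal)) l := by
  refine iSup_le fun a => ereal_le_of_add fun ε hε => ?_
  obtain ⟨b, hb⟩ := h a ε hε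
  have h1 : liminf (fun i => (f a i : EReal)) l ≤
      liminf ((fun _ => (ε : EReal)) + fun i => (g b i : EReal)) l := by
    refine liminf_le_liminf (Filter.Eventually.of_forall fun i => ?_)
    simp only [Pi.add_apply]
    rw [← EReal.coe_add, EReal.coe_le_coe_iff, add_comm]
    exact hb i
  refine h1.trans ((EReal.liminf_add_le ?_ ?_).trans ?_)
  · left; rw [limsup_const]; exact EReal.coe_ne_bot ε
  · left; rw [limsup_const]; exact EReal.coe_ne_top ε
  · rw [limsup_const]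
    exact add_le_add le_rfl (le_iSup (fun b => liminf (fun i => (g b i : EReal)) l) b)

end Limits

/-- **Bridge theorem.** Let `S` be a monoid (cancellative and left amenable, or any other), `K` a
compact Hausdorff abelian group and `γ` a left action of `S` on `K` by continuous endomorphisms.
Along every left Følner net `F` of `S`, the topological entropy of `γ` equals the algebraic
entropy of the dual action: if the limits defining the two entropies exist, their suprema agree;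
and, without any assumption on the existence of limits, the same equality holds with upper
limits and with lower limits. -/
theorem result {S : Type u} [Monoid S] {K : Type w} [CommGroup K] [TopologicalSpace K]
    [IsTopologicalGroup K] [CompactSpace K] [T2Space K] (γ : EndoAction S K)
    {I : Type v} [Preorder I] [IsDirectedOrder I] [Nonempty I] (F : I → Finset S)
    (hF : IsLeftFolnerNet F) :
    (∀ h h' : EReal, IsTopEntropy γ F h → IsAlgEntropy γ F h' → h = h') ∧
      hTopSup γ F = hAlgSup γ F ∧ hTopInf γ F = hAlgInf γ F := by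
  have hA : ∀ 𝒰 : {𝒰 : Set (Set K) // IsFinOpenCover 𝒰}, ∀ ε : ℝ, 0 < ε →
      ∃ X : {X : Finset (PontryaginDual K) // X.Nonempty}, ∀ i,
        topRate γ 𝒰.1 (F i) ≤ algRate γ X.1 (F i) + ε := by
    intro 𝒰 ε hε
    obtain ⟨X, hX, h⟩ := topRate_le γ 𝒰.2 hε
    exact ⟨⟨X, hX⟩, fun i => h (F i) (hF.1 i)⟩
  have hB : ∀ X : {X : Finset (PontryaginDual K) // X.Nonempty}, ∀ ε : ℝ, 0 < ε →
      ∃ 𝒰 : {𝒰 : Set (Set K) // IsFinOpenCover 𝒰}, ∀ i,
        algRate γ X.1 (F i) ≤ topRate γ 𝒰.1 (F i) + ε := by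
    intro X ε hε
    obtain ⟨𝒰, h𝒰, h⟩ := algRate_le γ X.2 hε
    exact ⟨⟨𝒰, h𝒰⟩, fun i => h (F i) (hF.1 i)⟩
  have hsup : hTopSup γ F = hAlgSup γ F :=
    le_antisymm
      (sup_limsup_le atTop (fun (𝒰 : {𝒰 : Set (Set K) // IsFinOpenCover 𝒰}) i =>
        topRate γ 𝒰.1 (F i)) (fun (X : {X : Finset (PontryaginDual K) // X.Nonempty}) i =>
        algRate γ X.1 (F i)) hA)
      (sup_limsup_le atTop (fun (X : {X : Finset (PontryaginDual K) // X.Nonempty}) i =>
        algRate γ X.1 (F i)) (fun (𝒰 : {𝒰 : Set (Set K) // IsFinOpenCover 𝒰}) i =>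
        topRate γ 𝒰.1 (F i)) hB)
  have hinf : hTopInf γ F = hAlgInf γ F :=
    le_antisymm
      (sup_liminf_le atTop (fun (𝒰 : {𝒰 : Set (Set K) // IsFinOpenCover 𝒰}) i =>
        topRate γ 𝒰.1 (F i)) (fun (X : {X : Finset (PontryaginDual K) // X.Nonempty}) i =>
        algRate γ X.1 (F i)) hA)
      (sup_liminf_le atTop (fun (X : {X : Finset (PontryaginDual K) // X.Nonempty}) i =>
        algRate γ X.1 (F i)) (fun (𝒰 : {𝒰 : Set (Set K) // IsFinOpenCover 𝒰}) i =>
        topRate γ 𝒰.1 (F i)) hB)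
  refine ⟨?_, hsup, hinf⟩
  rintro h h' ⟨a, ha, rfl⟩ ⟨b, hb, rfl⟩
  have h1 : ∀ 𝒰 : {𝒰 : Set (Set K) // IsFinOpenCover 𝒰},
      limsup (fun i => (topRate γ 𝒰.1 (F i) : EReal)) atTop = (a 𝒰 : EReal) := fun 𝒰 =>
    ((continuous_coe_real_ereal.tendsto _).comp (ha 𝒰)).limsup_eq
  have h2 : ∀ X : {X : Finset (PontryaginDual K) // X.Nonempty},
      limsup (fun i => (algRate γ X.1 (F i) : EReal)) atTop = (b X : EReal) := fun X =>
    ((continuous_coe_real_ereal.tendsto _).comp (hb X)).limsup_eq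
  simp only [hTopSup, hAlgSup, h1, h2] at hsup
  exact hsup

end Pool.Agent.Results.MP_699bc8_an.BridgeTheorem
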